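import Mathlib

/-!
# Differentially simple commutative algebras in characteristic two

A finite-dimensional commutative algebra over a field of characteristic two which has an
augmentation and in which every ideal stable under all derivations is trivial is a truncated
polynomial algebra.  This is the algebraic core of the result on string point-invertible
manifolds.
-/

namespace MP460d31

universe u v

open Module

/-- `H` has no ideal stable under all `K`-linear derivations except `⊥` and `⊤`. -/
def DiffSimple (K : Type u) (H : Type v) [Field K] [CommRing H] [Algebra K H] : Prop :=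
  ∀ I : Ideal H, (∀ D : Derivation K H H, ∀ z ∈ I, D z ∈ I) → I = ⊥ ∨ I = ⊤

section char2

variable {K : Type u} {H : Type v} [Field K] [CharP K 2] [CommRing H] [Algebra K H]

omit [CharP K 2] in
theorem two_eq_zero' [CharP K 2] : (2 : H) = 0 := by
  have h : (2 : K) = 0 := CharTwo.two_eq_zero
  have h2 := congrArg (algebraMap K H) h
  rw [map_zero] at h2
  rw [← h2]
  exact (map_ofNat (algebraMap K H) 2).symm

omit [CharP K 2] in
theorem add_self' [CharP K 2] (z : H) : z + z = 0 := by
  rw [← two_mul, two_eq_zero' (K := K), zero_mul]

omit [CharP K 2] in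
theorem leib (D : Derivation K H H) (x y : H) : D (x * y) = D x * y + x * D y := by
  rw [D.leibniz, smul_eq_mul, smul_eq_mul]; ring

theorem sq_zero (hDS : DiffSimple K H) (ε : H →ₐ[K] K) {z : H} (hz : ε z = 0) :
    z * z = 0 := by
  have key : ∀ D : Derivation K H H, ∀ w ∈ Ideal.span {z * z}, D w ∈ Ideal.span {z * z} := by
    intro D w hw
    rw [Ideal.mem_span_singleton'] at hw ⊢
    obtain ⟨c, rfl⟩ := hw
    refine ⟨D c, ?_⟩
    have h0 : z * D z + z * D z = 0 := add_self' (K := K) _
    rw [leib, leib D z z]
    linear_combination (-c) * h0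
  rcases hDS (Ideal.span {z * z}) key with h | h
  · have : z * z ∈ Ideal.span {z * z} := Ideal.mem_span_singleton_self _
    rw [h] at this
    exact (Submodule.mem_bot _).1 this
  · exfalso
    rw [Ideal.span_singleton_eq_top] at h
    have h2 := h.map ε
    rw [map_mul, hz, mul_zero] at h2
    exact not_isUnit_zero h2

/-- The square of a derivation is a derivation in characteristic two. -/
def sqDer (D : Derivation K H H) : Derivation K H H :=
  Derivation.mk' (D.toLinearMap ∘ₗ D.toLinearMap) (by
    intro a b
    have h0 : D a * D b + D a * D b = 0 := add_self' (K := K) _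
    change D (D (a * b)) = a * D (D b) + b * D (D a)
    rw [leib, map_add, leib, leib]
    linear_combination h0)

theorem sqDer_apply (D : Derivation K H H) (z : H) : sqDer D z = D (D z) := rfl

/-- From a derivation moving an element of the augmentation ideal out of it we get one
with square zero taking a square-zero element of the augmentation ideal to `1`. -/
theorem exists_nice (hDS : DiffSimple K H) (ε : H →ₐ[K] K) (h : RingHom.ker ε ≠ ⊥) :
    ∃ (D : Derivation K H H) (a : H), ε a = 0 ∧ D a = 1 ∧ ∀ z, D (D z) = 0 := by
  have htop : RingHom.ker ε ≠ ⊤ := RingHom.ker_ne_top ε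
  have hns : ∃ (D : Derivation K H H) (a : H), ε a = 0 ∧ ε (D a) ≠ 0 := by
    by_contra hcon
    push Not at hcon
    rcases hDS (RingHom.ker ε) (fun D z hz => by
      rw [RingHom.mem_ker] at hz ⊢
      exact hcon D z hz) with h1 | h1
    · exact h h1
    · exact htop h1
  obtain ⟨D, a, ha, hDa⟩ := hns
  -- the inverse of `D a`
  set c : K := ε (D a) with hc
  have hw : ε (D a - algebraMap K H c) = 0 := by
    rw [map_sub, AlgHom.commutes]
    simp [hc]
  have hw2 := sq_zero hDS ε hw
  have hc2 : algebraMap K H c * algebraMap K H (c⁻¹) = 1 := by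
    rw [← map_mul, mul_inv_cancel₀ hDa, map_one]
  have h20 : (2 : H) = 0 := two_eq_zero' (K := K)
  have hinv : (D a * algebraMap K H (c⁻¹) * algebraMap K H (c⁻¹)) * D a = 1 := by
    have e1 : D a * D a = algebraMap K H c * algebraMap K H c := by
      linear_combination hw2 + (D a * algebraMap K H c - algebraMap K H c * algebraMap K H c) * h20
    calc _ = (D a * D a) * (algebraMap K H (c⁻¹) * algebraMap K H (c⁻¹)) := by ring
      _ = (algebraMap K H c * algebraMap K H (c⁻¹)) * (algebraMap K H c * algebraMap K H (c⁻¹)) := by
          rw [e1]; ring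
      _ = 1 := by rw [hc2, one_mul]
  set v : H := D a * algebraMap K H (c⁻¹) * algebraMap K H (c⁻¹) with hv
  let D1 : Derivation K H H := v • D
  have hD1a : D1 a = 1 := by
    change v • D a = 1
    rw [smul_eq_mul]; exact hinv
  let E : Derivation K H H := sqDer D1
  have hEa : E a = 0 := by
    change D1 (D1 a) = 0
    rw [hD1a]; exact D1.map_one_eq_zero
  let D' : Derivation K H H := D1 + a • E
  have hD' : ∀ z, D' z = D1 z + a * E z := fun z => rfl
  have haa := sq_zero hDS ε ha
  refine ⟨D', a, ha, ?_, ?_⟩
  · rw [hD', hEa, mul_zero, add_zero, hD1a]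
  · intro z
    rw [hD', hD' z, map_add, map_add, leib, leib, hEa, hD1a]
    have e1 : D1 (D1 z) = E z := rfl
    have e2 : D1 (E z) = E (D1 z) := rfl
    rw [e1, e2]
    linear_combination (E z + a * E (D1 z)) * h20 + (E (E z)) * haa

end char2

section step

variable {K : Type u} {H : Type v} [Field K] [CharP K 2] [CommRing H] [Algebra K H]

/-- Kernel of a derivation as a subalgebra. -/
def kerAlg (D : Derivation K H H) : Subalgebra K H where
  carrier := {z | D z = 0}
  mul_mem' := by
    intro a b ha hb
    simp only [Set.mem_ofPred_eq] at *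
    rw [leib, ha, hb]; ring
  add_mem' := by
    intro a b ha hb
    simp only [Set.mem_ofPred_eq] at *
    rw [map_add, ha, hb, add_zero]
  algebraMap_mem' := by
    intro r
    exact D.map_algebraMap r

omit [CharP K 2] in
theorem mem_kerAlg (D : Derivation K H H) (z : H) : z ∈ kerAlg D ↔ D z = 0 := Iff.rfl

/-- The projection onto the kernel. -/
def proj (D : Derivation K H H) (a : H) (ha : D a = 1) (haa : a * a = 0)
    (hD : ∀ z, D (D z) = 0) : H →ₐ[K] kerAlg D :=
  AlgHom.ofLinearMap
    { toFun := fun z => ⟨z + a * D z, by
        have h0 : D z + D z = 0 := add_self' (K := K) _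
        rw [mem_kerAlg, map_add, leib, ha, hD z]
        linear_combination h0⟩
      map_add' := by
        intro x y
        ext
        simp only [map_add, AddMemClass.mk_add_mk]
        ring
      map_smul' := by
        intro c x
        ext
        simp only [RingHom.id_apply, SetLike.val_smul]
        rw [smul_add, D.map_smul, mul_smul_comm] }
    (by
      ext
      simp)
    (by
      intro x y
      ext
      simp only [LinearMap.coe_mk, AddHom.coe_mk, MulMemClass.mk_mul_mk]
      rw [leib]
      linear_combination (-(D x * D y)) * haa)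

variable (D : Derivation K H H) (a : H) (ha : D a = 1) (haa : a * a = 0)
    (hD : ∀ z, D (D z) = 0)

theorem proj_val (z : H) : ((proj D a ha haa hD z : kerAlg D) : H) = z + a * D z := rfl

theorem proj_coe (z : kerAlg D) : proj D a ha haa hD (z : H) = z := by
  ext
  rw [proj_val, (mem_kerAlg D _).1 z.2]; ring

theorem proj_a : proj D a ha haa hD a = 0 := by
  ext
  rw [proj_val, ha]
  have h0 : a + a = 0 := add_self' (K := K) _
  simp [h0]

/-- The derivation as a map into its kernel. -/
def toKer : H →ₗ[K] kerAlg D where
  toFun z := ⟨D z, hD z⟩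
  map_add' x y := by ext; simp
  map_smul' c x := by ext; simp

omit [CharP K 2] in
theorem toKer_val (z : H) : ((toKer D hD z : kerAlg D) : H) = D z := rfl

theorem decomp (z : H) : z = (proj D a ha haa hD z : H) + a * (toKer D hD z : H) := by
  rw [proj_val, toKer_val]
  have h0 : a * D z + a * D z = 0 := add_self' (K := K) _
  linear_combination -h0

/-- `p ∘ F` restricted to the kernel is a derivation of the kernel. -/
def der1 (F : Derivation K H H) : Derivation K (kerAlg D) (kerAlg D) :=
  Derivation.mk' ((proj D a ha haa hD).toLinearMap ∘ₗ F.toLinearMap ∘ₗ (kerAlg D).val.toLinearMap)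
    (by
      intro x y
      change proj D a ha haa hD (F (x * y : kerAlg D)) =
        x * proj D a ha haa hD (F y) + y * proj D a ha haa hD (F x)
      rw [MulMemClass.coe_mul, leib, map_add, map_mul, map_mul, proj_coe, proj_coe]
      ring)

theorem der1_apply (F : Derivation K H H) (x : kerAlg D) :
    der1 D a ha haa hD F x = proj D a ha haa hD (F x) := rfl

/-- `D ∘ F` restricted to the kernel is a derivation of the kernel. -/
def der2 (F : Derivation K H H) : Derivation K (kerAlg D) (kerAlg D) :=
  Derivation.mk' (toKer D hD ∘ₗ F.toLinearMap ∘ₗ (kerAlg D).val.toLinearMap)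
    (by
      intro x y
      change toKer D hD (F (x * y : kerAlg D)) =
        x * toKer D hD (F y) + y * toKer D hD (F x)
      ext
      have hx : D (x : H) = 0 := x.2
      have hy : D (y : H) = 0 := y.2
      rw [toKer_val, MulMemClass.coe_mul, leib, map_add, leib, leib, AddMemClass.coe_add,
        MulMemClass.coe_mul, MulMemClass.coe_mul, toKer_val, toKer_val, hx, hy]
      ring)

theorem der2_apply (F : Derivation K H H) (x : kerAlg D) :
    der2 D hD F x = toKer D hD (F x) := rfl

include ha haa hD in
theorem diffSimple_ker (hDS : DiffSimple K H) : DiffSimple K (kerAlg D) := by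
  intro J hJ
  set p := proj D a ha haa hD with hp
  set q := toKer D hD with hq
  have qmul : ∀ x y : H, q (x * y) = q x * p y + p x * q y := by
    intro x y
    ext
    simp only [AddMemClass.coe_add, MulMemClass.coe_mul, hq, toKer_val, hp, proj_val]
    rw [leib]
    have h0 : a * (D x * D y) + a * (D x * D y) = 0 := add_self' (K := K) _
    linear_combination -h0
  let J' : Ideal H :=
    { carrier := {z | p z ∈ J ∧ q z ∈ J}
      add_mem' := by
        rintro x y ⟨hx1, hx2⟩ ⟨hy1, hy2⟩
        exact ⟨by rw [map_add]; exact J.add_mem hx1 hy1, by rw [map_add]; exact J.add_mem hx2 hy2⟩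
      zero_mem' := ⟨by rw [map_zero]; exact J.zero_mem, by rw [map_zero]; exact J.zero_mem⟩
      smul_mem' := by
        rintro c x ⟨hx1, hx2⟩
        refine ⟨?_, ?_⟩
        · rw [smul_eq_mul, map_mul]; exact J.mul_mem_left _ hx1
        · rw [smul_eq_mul, qmul]
          exact J.add_mem (J.mul_mem_left _ hx1) (J.mul_mem_left _ hx2) }
  have hJ' : ∀ F : Derivation K H H, ∀ z ∈ J', F z ∈ J' := by
    rintro F z ⟨hz1, hz2⟩
    have hz : z = (p z : H) + a * (q z : H) := decomp D a ha haa hD z
    have hFz : F z = F (p z : H) + (F a * (q z : H) + a * F (q z : H)) := by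
      conv_lhs => rw [hz]
      rw [map_add, leib]
    have hpq : ∀ w : kerAlg D, p (w : H) = w := fun w => proj_coe D a ha haa hD w
    have hqq : ∀ w : kerAlg D, q (w : H) = 0 := fun w => by
      ext; rw [hq, toKer_val]; exact w.2
    have hpa : p a = 0 := proj_a D a ha haa hD
    have hqa : q a = 1 := by ext; rw [hq, toKer_val]; exact ha
    refine ⟨?_, ?_⟩
    · rw [hFz, map_add, map_add, map_mul, map_mul, hpa, zero_mul, add_zero, hpq]
      refine J.add_mem ?_ (J.mul_mem_left _ hz2)
      have := hJ (der1 D a ha haa hD F) _ hz1
      rw [der1_apply] at this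
      exact this
    · rw [hFz, map_add, map_add, qmul, qmul, hpq, hqq, mul_zero, add_zero, hqa, hpa, zero_mul,
        add_zero, one_mul]
      refine J.add_mem ?_ (J.add_mem (J.mul_mem_left _ hz2) ?_)
      · have := hJ (der2 D hD F) _ hz1
        rw [der2_apply] at this
        exact this
      · have := hJ (der1 D a ha haa hD F) _ hz2
        rw [der1_apply] at this
        exact this
  rcases hDS J' hJ' with h | h
  · left
    rw [eq_bot_iff]
    intro j hj
    have hmem : (j : H) ∈ J' := by
      refine ⟨?_, ?_⟩
      · rw [hp, proj_coe]; exact hj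
      · have : q (j : H) = 0 := by ext; rw [hq, toKer_val]; exact j.2
        rw [this]; exact J.zero_mem
    rw [h] at hmem
    rw [Submodule.mem_bot] at hmem ⊢
    exact Subtype.ext hmem
  · right
    rw [Ideal.eq_top_iff_one]
    have h1 : (1 : H) ∈ J' := by rw [h]; trivial
    have h2 := h1.1
    rwa [map_one] at h2

/-- `H` is the direct sum of the kernel and `a` times the kernel. -/
def splitEquiv : H ≃ₗ[K] (kerAlg D) × (kerAlg D) where
  toFun z := (proj D a ha haa hD z, toKer D hD z)
  map_add' x y := by rw [map_add, map_add]; rfl
  map_smul' c x := by rw [map_smul, map_smul]; rfl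
  invFun w := (w.1 : H) + a * (w.2 : H)
  left_inv z := (decomp D a ha haa hD z).symm
  right_inv w := by
    obtain ⟨x, y⟩ := w
    have hx : D (x : H) = 0 := x.2
    have hy : D (y : H) = 0 := y.2
    refine Prod.ext ?_ ?_
    · change proj D a ha haa hD ((x : H) + a * (y : H)) = x
      rw [map_add, map_mul, proj_a, zero_mul, add_zero, proj_coe]
    · change toKer D hD ((x : H) + a * (y : H)) = y
      ext
      rw [toKer_val, map_add, leib, hx, hy, ha]
      ring

end step

end MP460d31
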