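import Pool.Agent.Lib.MP_460d31_gt.Graded

/-!
# Classification of the graded algebras
-/

namespace MP460d31

universe u v w

open Module DirectSum

/-- A connected graded commutative algebra with Poincare duality and fundamental class `μ` in
degree `n`: the cohomology ring of a closed connected `n`-manifold with coefficients in a
field of characteristic two. -/
structure PoincareAlgebra (K : Type u) (H : Type v) [Field K] [CommRing H] [Algebra K H]
    (𝒜 : ℕ → Submodule K H) (n : ℕ) (μ : H) : Prop where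
  finite : FiniteDimensional K H
  zero : 𝒜 0 = Submodule.span K {1}
  top : 𝒜 n = Submodule.span K {μ}
  ne_zero : μ ≠ 0
  above : ∀ i, n < i → 𝒜 i = ⊥
  dual : ∀ i, ∀ z ∈ 𝒜 i, z ≠ 0 → ∃ w ∈ 𝒜 (n - i), z * w = μ

/-- The ring of a product of spheres: homogeneous square-zero generators of positive degree
whose squarefree monomials are a basis, the product of all of them being the fundamental
class. -/
def SphereProductRing (K : Type u) (H : Type v) [Field K] [CommRing H] [Algebra K H]
    (𝒜 : ℕ → Submodule K H) (n : ℕ) (μ : H) : Prop :=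
  ∃ (r : ℕ) (d : Fin r → ℕ) (x : Fin r → H),
    (∀ i, 0 < d i) ∧ (∀ i, x i ∈ 𝒜 (d i)) ∧ (∀ i, x i ^ 2 = 0) ∧
    (∃ b : Basis (Finset (Fin r)) K H, ∀ S, b S = ∏ i ∈ S, x i) ∧
    (∑ i, d i = n) ∧ ∃ c : K, c ≠ 0 ∧ μ = c • ∏ i, x i

variable {K : Type u} {H : Type v} [Field K] [CommRing H] [Algebra K H]
  (𝒜 : ℕ → Submodule K H) [GradedAlgebra 𝒜]

theorem exists_aug [Nontrivial H] (h0 : 𝒜 0 = Submodule.span K {1}) :
    ∃ ε : H →ₐ[K] K, ∀ z, ((decompose 𝒜 z 0 : 𝒜 0) : H) = algebraMap K H (ε z) := by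
  have hex : ∀ z : H, ∃ c : K, algebraMap K H c = ((decompose 𝒜 z 0 : 𝒜 0) : H) := by
    intro z
    obtain ⟨c, hc⟩ := Submodule.mem_span_singleton.1 (h0.le (decompose 𝒜 z 0).2)
    exact ⟨c, by rw [← hc, Algebra.algebraMap_eq_smul_one]⟩
  choose f hf using hex
  have hinj : Function.Injective (algebraMap K H) := (algebraMap K H).injective
  have hproj : ∀ z, GradedRing.projZeroRingHom 𝒜 z = algebraMap K H (f z) := fun z => by
    rw [hf z, GradedRing.projZeroRingHom_apply]
  have halg : ∀ c : K, f (algebraMap K H c) = c := by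
    intro c
    apply hinj
    rw [hf]
    have hmem : algebraMap K H c ∈ 𝒜 0 := by
      rw [h0, Algebra.algebraMap_eq_smul_one]
      exact Submodule.smul_mem _ _ (Submodule.mem_span_singleton_self _)
    exact decompose_of_mem_same 𝒜 hmem
  refine ⟨{ toFun := f, map_one' := ?_, map_mul' := ?_, map_zero' := ?_, map_add' := ?_,
            commutes' := ?_ }, ?_⟩
  · have := halg 1
    rwa [map_one] at this
  · intro x y
    apply hinj
    rw [← hproj, map_mul, map_mul, hproj, hproj]
  · have := halg 0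
    rwa [map_zero] at this
  · intro x y
    apply hinj
    rw [← hproj, map_add, map_add, hproj, hproj]
  · intro c
    exact halg c
  · intro z
    exact (hf z).symm

variable {𝒜} {n : ℕ} {μ : H}

theorem nontrivial_of_pd (hPD : PoincareAlgebra K H 𝒜 n μ) : Nontrivial H := ⟨⟨μ, 0, hPD.ne_zero⟩⟩

/-- Choice of homogeneous generators: there are homogeneous elements of positive degree, at most
`r` in number, spanning the augmentation ideal modulo its square. -/
theorem exists_homogeneous [FiniteDimensional K H] (ε : H →ₐ[K] K)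
    (hε : ∀ z, ((decompose 𝒜 z 0 : 𝒜 0) : H) = algebraMap K H (ε z))
    (M : Submodule K H) (hM : ∀ z, z ∈ M ↔ ε z = 0) {r : ℕ} (x : Fin r → H)
    (hMx : M ≤ Submodule.span K (Set.range x) ⊔ M * M) (hMM : M * M ≤ M) :
    ∃ (s : ℕ) (d : Fin s → ℕ) (y : Fin s → H), s ≤ r ∧ (∀ i, 0 < d i) ∧ (∀ i, y i ∈ 𝒜 (d i)) ∧
      M ≤ Submodule.span K (Set.range y) ⊔ M * M := by
  classical
  set π := (M * M).mkQ with hπ
  obtain ⟨b, hbs, hspan, hli⟩ :=
    exists_linearIndependent K (π '' {z | ∃ i, 0 < i ∧ z ∈ 𝒜 i})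
  have hpos : ∀ z i, 0 < i → z ∈ 𝒜 i → z ∈ M := by
    intro z i hi hz
    have h1 := hε z
    rw [decompose_of_mem_ne 𝒜 hz hi.ne'] at h1
    rw [hM]
    by_contra hne
    have h2 : algebraMap K H (ε z)⁻¹ * algebraMap K H (ε z) = 1 := by
      rw [← map_mul, inv_mul_cancel₀ hne, map_one]
    rw [← h1, mul_zero] at h2
    have h3 : z = 0 := by
      calc z = 1 * z := (one_mul z).symm
        _ = 0 := by rw [← h2, zero_mul]
    apply hne
    rw [h3, map_zero]
  have hfinb : b.Finite := hli.setFinite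
  have : Fintype b := hfinb.fintype
  have hcard : Fintype.card b ≤ r := by
    have h1 : finrank K (Submodule.span K b) = b.toFinset.card := finrank_span_set_eq_card hli
    have h2 : Submodule.span K b ≤ Submodule.span K (Set.range (fun i => π (x i))) := by
      rw [hspan, Submodule.span_le]
      rintro _ ⟨z, ⟨i, hi, hz⟩, rfl⟩
      have h3 := hMx (hpos z i hi hz)
      obtain ⟨p, hp, q, hq, rfl⟩ := Submodule.mem_sup.1 h3
      have hq0 : π q = 0 := (Submodule.Quotient.mk_eq_zero _).2 hq
      rw [map_add, hq0, add_zero]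
      have h4 : π p ∈ (Submodule.span K (Set.range x)).map π := ⟨p, hp, rfl⟩
      rw [Submodule.map_span, ← Set.range_comp] at h4
      exact h4
    have h5 := Submodule.finrank_mono h2
    have h6 : finrank K (Submodule.span K (Set.range (fun i => π (x i)))) ≤ Fintype.card (Fin r) :=
      finrank_range_le_card (fun i => π (x i))
    rw [Fintype.card_fin] at h6
    rw [Set.toFinset_card] at h1
    omega
  have hch : ∀ v : b, ∃ z : H, ∃ i, 0 < i ∧ z ∈ 𝒜 i ∧ π z = v := by
    rintro ⟨v, hv⟩
    obtain ⟨z, ⟨i, hi, hz⟩, hzv⟩ := hbs hv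
    exact ⟨z, i, hi, hz, hzv⟩
  choose l dg hdg hl hπl using hch
  let e : Fin (Fintype.card b) ≃ b := (Fintype.equivFin b).symm
  refine ⟨Fintype.card b, fun j => dg (e j), fun j => l (e j), hcard, fun j => hdg _,
    fun j => hl _, ?_⟩
  have hspany : Submodule.span K b =
      (Submodule.span K (Set.range (fun j => l (e j)))).map π := by
    rw [Submodule.map_span, ← Set.range_comp]
    congr 1
    ext v
    constructor
    · intro hv
      exact ⟨e.symm ⟨v, hv⟩, by simp [hπl]⟩
    · rintro ⟨j, rfl⟩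
      simp only [Function.comp_apply, hπl]
      exact (e j).2
  intro z hz
  have hz0 : ((decompose 𝒜 z 0 : 𝒜 0) : H) = 0 := by
    rw [hε, (hM z).1 hz, map_zero]
  have hzs : π z ∈ Submodule.span K b := by
    rw [hspan]
    rw [← sum_support_decompose 𝒜 z, map_sum]
    refine Submodule.sum_mem _ ?_
    intro i _
    rcases Nat.eq_zero_or_pos i with rfl | hi
    · rw [hz0, map_zero]; exact Submodule.zero_mem _
    · exact Submodule.subset_span ⟨_, ⟨i, hi, (decompose 𝒜 z i).2⟩, rfl⟩
  rw [hspany] at hzs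
  obtain ⟨w, hw, hwz⟩ := hzs
  have h7 : z - w ∈ M * M := by
    have : π (z - w) = 0 := by rw [map_sub, hwz, sub_self]
    exact (Submodule.Quotient.mk_eq_zero _).1 this
  have h8 : z = w + (z - w) := by ring
  rw [h8]
  exact Submodule.add_mem _ (Submodule.mem_sup_left hw) (Submodule.mem_sup_right h7)

/-- Differentially simple algebras with Poincare duality are rings of products of spheres. -/
theorem classify [CharP K 2] (hPD : PoincareAlgebra K H 𝒜 n μ) (hDS : DiffSimple K H) :
    SphereProductRing K H 𝒜 n μ := by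
  classical
  have := hPD.finite
  have := nontrivial_of_pd hPD
  obtain ⟨ε, hε⟩ := exists_aug 𝒜 hPD.zero
  obtain ⟨r, x, hx, hr, hgen⟩ := structure_aux _ H ε hDS rfl
  let M : Submodule K H := LinearMap.ker ε.toLinearMap
  have hM : ∀ z, z ∈ M ↔ ε z = 0 := fun z => LinearMap.mem_ker
  have hMM : M * M ≤ M := by
    rw [Submodule.mul_le]
    intro a ha b _
    rw [hM] at ha ⊢
    rw [map_mul, ha, zero_mul]
  obtain ⟨s, d, y, hsr, hd, hy, hMy⟩ := exists_homogeneous (𝒜 := 𝒜) ε hε M hM x
    (le_span_sup ε M hM x hx hgen) hMM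
  have hεy : ∀ i, ε (y i) = 0 := by
    intro i
    have h1 := hε (y i)
    rw [decompose_of_mem_ne 𝒜 (hy i) (hd i).ne'] at h1
    have h2 : Function.Injective (algebraMap K H) := (algebraMap K H).injective
    exact h2 (by rw [← h1, map_zero])
  have hyy : ∀ i, y i * y i = 0 := fun i => sq_zero hDS ε (hεy i)
  obtain ⟨N, hN⟩ := pow_eq_bot ε M hM (fun z hz => sq_zero hDS ε hz)
  have hgeny : Algebra.adjoin K (Set.range y) = ⊤ := by
    refine adjoin_eq_top_of_sup ε M (Submodule.span K (Set.range y)) hM ?_ hMy N hN _ ?_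
    · rw [Submodule.span_le]
      rintro _ ⟨i, rfl⟩
      exact (hM _).2 (hεy i)
    · rw [Submodule.span_le]
      exact Algebra.subset_adjoin
  have hsp := span_monomials y hyy hgeny
  have hcard : Fintype.card (Finset (Fin s)) = finrank K H := by
    have h1 : (Set.range (fun S : Finset (Fin s) => ∏ i ∈ S, y i)).finrank K ≤
        Fintype.card (Finset (Fin s)) := finrank_range_le_card _
    rw [Set.finrank, hsp, finrank_top, hr, Fintype.card_finset, Fintype.card_fin] at h1
    rw [Fintype.card_finset, Fintype.card_fin, hr]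
    exact le_antisymm (Nat.pow_le_pow_right (by norm_num) hsr) h1
  let b : Basis (Finset (Fin s)) K H := basisOfTopLeSpanOfCardEqFinrank _ hsp.ge hcard
  have hb : ∀ S, b S = ∏ i ∈ S, y i := fun S => by
    simp [b]
  set P : H := ∏ i, y i with hP
  have hP0 : P ≠ 0 := by
    rw [hP, ← hb]; exact b.ne_zero _
  have hPmem : P ∈ 𝒜 (∑ i, d i) := SetLike.prod_mem_graded 𝒜 d y (fun i _ => hy i)
  have hyP : ∀ i, y i * P = 0 := by
    intro i
    rw [hP, ← Finset.mul_prod_erase Finset.univ y (Finset.mem_univ i), ← mul_assoc, hyy, zero_mul]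
  have hwP : ∀ w : H, w * P = ε w • P := by
    intro w
    have hw : w ∈ Algebra.adjoin K (Set.range y) := by rw [hgeny]; trivial
    induction hw using Algebra.adjoin_induction with
    | mem v hv =>
      obtain ⟨i, rfl⟩ := hv
      rw [hyP, hεy, zero_smul]
    | algebraMap c => rw [AlgHom.commutes, Algebra.smul_def]; simp
    | add a b _ _ ha hb => rw [add_mul, ha, hb, map_add, add_smul]
    | mul a b _ _ ha hb => rw [mul_assoc, hb, mul_smul_comm, ha, map_mul, smul_smul, mul_comm]
  obtain ⟨w, _, hw⟩ := hPD.dual _ P hPmem hP0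
  have hμ : μ = ε w • P := by rw [← hw, mul_comm, hwP]
  have hc : ε w ≠ 0 := by
    intro h
    rw [h, zero_smul] at hμ
    exact hPD.ne_zero hμ
  refine ⟨s, d, y, hd, hy, fun i => by rw [pow_two, hyy], ⟨b, hb⟩, ?_, ε w, hc, hμ⟩
  have hμn : P ∈ 𝒜 n := by
    have h1 : P = (ε w)⁻¹ • μ := by rw [hμ, smul_smul, inv_mul_cancel₀ hc, one_smul]
    rw [h1, hPD.top]
    exact Submodule.smul_mem _ _ (Submodule.mem_span_singleton_self _)
  exact DirectSum.degree_eq_of_mem_mem 𝒜 hPmem hμn hP0

end MP460d31
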