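import Pool.Agent.Lib.MP_460d31_gt.StringAlg

/-!
# The converse construction
-/

namespace MP460d31

universe u v w

open Module DirectSum TensorProduct

section partialDer

variable {K : Type u} {H : Type v} [Field K] [CharP K 2] [CommRing H] [Algebra K H]
  {r : ℕ} (x : Fin r → H) (hx : ∀ i, x i * x i = 0) (b : Basis (Finset (Fin r)) K H)
  (hb : ∀ S, b S = ∏ i ∈ S, x i)

/-- The partial derivative as a linear map, given on squarefree monomials. -/
noncomputable def del (i : Fin r) : H →ₗ[K] H :=
  b.constr K (fun S => if i ∈ S then ∏ j ∈ S.erase i, x j else 0)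

include hb in
omit [CharP K 2] in
theorem del_mono (i : Fin r) (S : Finset (Fin r)) :
    del x b i (∏ j ∈ S, x j) = if i ∈ S then ∏ j ∈ S.erase i, x j else 0 := by
  rw [← hb, del, Basis.constr_basis]

include hx hb in
theorem del_leibniz_mono (i : Fin r) (S T : Finset (Fin r)) :
    del x b i ((∏ j ∈ S, x j) * (∏ j ∈ T, x j)) =
      (∏ j ∈ S, x j) * del x b i (∏ j ∈ T, x j) + (∏ j ∈ T, x j) * del x b i (∏ j ∈ S, x j) := by
  classical
  by_cases hST : Disjoint S T
  · rw [prod_mul_prod_eq x S T hST, del_mono x b hb, del_mono x b hb, del_mono x b hb]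
    by_cases hS : i ∈ S
    · have hT : i ∉ T := Finset.disjoint_left.1 hST hS
      rw [if_pos (Finset.mem_union_left _ hS), if_neg hT, if_pos hS, mul_zero, zero_add,
        Finset.erase_union_distrib, Finset.erase_eq_of_notMem hT, mul_comm,
        prod_mul_prod_eq x _ _ (Finset.disjoint_of_subset_left (Finset.erase_subset _ _) hST)]
    · by_cases hT : i ∈ T
      · rw [if_pos (Finset.mem_union_right _ hT), if_pos hT, if_neg hS, mul_zero, add_zero,
          Finset.erase_union_distrib, Finset.erase_eq_of_notMem hS,
          prod_mul_prod_eq x _ _ (Finset.disjoint_of_subset_right (Finset.erase_subset _ _) hST)]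
      · rw [if_neg (by simp [hS, hT]), if_neg hT, if_neg hS]
        ring
  · rw [prod_mul_prod_eq_zero x hx S T hST, map_zero, del_mono x b hb, del_mono x b hb]
    by_cases hS : i ∈ S
    · by_cases hT : i ∈ T
      · rw [if_pos hS, if_pos hT, ← Finset.mul_prod_erase S x hS, ← Finset.mul_prod_erase T x hT]
        have h0 : x i * (∏ j ∈ S.erase i, x j) * (∏ j ∈ T.erase i, x j) +
          x i * (∏ j ∈ S.erase i, x j) * (∏ j ∈ T.erase i, x j) = 0 := add_self' (K := K) _
        linear_combination -h0
      · rw [if_pos hS, if_neg hT, mul_zero, zero_add, prod_mul_prod_eq_zero x hx]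
        intro hd
        apply hST
        rw [Finset.disjoint_left] at hd ⊢
        intro j hjS hjT
        exact hd hjT (Finset.mem_erase.2 ⟨fun h => hT (h ▸ hjT), hjS⟩)
    · by_cases hT : i ∈ T
      · rw [if_neg hS, if_pos hT, mul_zero, add_zero, prod_mul_prod_eq_zero x hx]
        intro hd
        apply hST
        rw [Finset.disjoint_left] at hd ⊢
        intro j hjS hjT
        exact hd hjS (Finset.mem_erase.2 ⟨fun h => hS (h ▸ hjS), hjT⟩)
      · rw [if_neg hS, if_neg hT]
        ring

include hx hb in
theorem del_leibniz (i : Fin r) (u v : H) :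
    del x b i (u * v) = u * del x b i v + v * del x b i u := by
  have hu : u ∈ Submodule.span K (Set.range b) := by rw [b.span_eq]; trivial
  have hv : v ∈ Submodule.span K (Set.range b) := by rw [b.span_eq]; trivial
  induction hu using Submodule.span_induction with
  | mem u hu =>
    obtain ⟨S, rfl⟩ := hu
    induction hv using Submodule.span_induction with
    | mem v hv =>
      obtain ⟨T, rfl⟩ := hv
      rw [hb, hb]
      exact del_leibniz_mono x hx b hb i S T
    | zero => simp
    | add v w _ _ hv hw => rw [mul_add, map_add, map_add, hv, hw]; ring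
    | smul c v _ hv => rw [mul_smul_comm, map_smul, map_smul, hv]; simp [smul_add]
  | zero => simp
  | add u w _ _ hu hw => rw [add_mul, map_add, map_add, hu, hw]; ring
  | smul c u _ hu => rw [smul_mul_assoc, map_smul, map_smul, hu]; simp [smul_add]

/-- The partial derivative as a derivation. -/
noncomputable def delDer (i : Fin r) : Derivation K H H :=
  Derivation.mk' (del x b i) (del_leibniz x hx b hb i)

theorem delDer_apply (i : Fin r) (u : H) : delDer x hx b hb i u = del x b i u := rfl

include hb in
omit [CharP K 2] in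
theorem del_comm (i j : Fin r) (u : H) :
    del x b i (del x b j u) = del x b j (del x b i u) := by
  classical
  have h : del x b i ∘ₗ del x b j = del x b j ∘ₗ del x b i := by
    apply b.ext
    intro S
    rw [hb, LinearMap.comp_apply, LinearMap.comp_apply, del_mono x b hb, del_mono x b hb]
    by_cases hi : i ∈ S
    · by_cases hj : j ∈ S
      · rw [if_pos hi, if_pos hj, del_mono x b hb, del_mono x b hb]
        by_cases hij : i = j
        · subst hij; rfl
        · rw [if_pos (Finset.mem_erase.2 ⟨hij, hi⟩), if_pos (Finset.mem_erase.2 ⟨Ne.symm hij, hj⟩),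
            Finset.erase_right_comm]
      · rw [if_pos hi, if_neg hj, map_zero, del_mono x b hb,
          if_neg (fun h => hj (Finset.mem_of_mem_erase h))]
    · by_cases hj : j ∈ S
      · rw [if_neg hi, if_pos hj, map_zero, del_mono x b hb,
          if_neg (fun h => hi (Finset.mem_of_mem_erase h))]
      · rw [if_neg hi, if_neg hj, map_zero, map_zero]
  exact LinearMap.congr_fun h u

include hb in
omit [CharP K 2] in
theorem del_sq (i : Fin r) (u : H) : del x b i (del x b i u) = 0 := by
  classical
  have h : del x b i ∘ₗ del x b i = 0 := by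
    apply b.ext
    intro S
    rw [hb, LinearMap.comp_apply, del_mono x b hb]
    by_cases hi : i ∈ S
    · rw [if_pos hi, del_mono x b hb, if_neg (by simp)]; rfl
    · rw [if_neg hi, map_zero]; rfl
  exact LinearMap.congr_fun h u

include hb in
omit [CharP K 2] in
theorem foldr_del (l : List (Fin r)) (hl : l.Nodup) (T : Finset (Fin r)) (hT : ∀ i ∈ l, i ∈ T) :
    l.foldr (fun i z => del x b i z) (∏ j ∈ T, x j) = ∏ j ∈ T \ l.toFinset, x j := by
  classical
  induction l with
  | nil => simp
  | cons i l ih =>
    rw [List.nodup_cons] at hl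
    rw [List.foldr_cons, ih hl.2 (fun j hj => hT j (List.mem_cons_of_mem _ hj)), del_mono x b hb,
      if_pos]
    · congr 1
      ext j
      simp only [Finset.mem_erase, Finset.mem_sdiff, List.mem_toFinset, List.mem_cons]
      tauto
    · rw [Finset.mem_sdiff, List.mem_toFinset]
      exact ⟨hT i List.mem_cons_self, hl.1⟩

end partialDer

section secondOrder

variable {K : Type u} [Field K] [CharP K 2]

/-- A composition of two derivations is an operator of second order. -/
theorem seven_of_comp {L : Type v} [CommRing L] [Algebra K L] (D E : Derivation K L L)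
    (a b c : L) : D (E (a * b * c)) =
      D (E (a * b)) * c + a * D (E (b * c)) + b * D (E (a * c)) + D (E a) * b * c +
        a * D (E b) * c + a * b * D (E c) := by
  have h0 : ∀ z : L, z + z = 0 := fun z => add_self' (K := K) z
  simp only [leib, map_add, add_mul, mul_add]
  linear_combination (-1 : L) * h0 (D (E a) * b * c) - h0 (a * D (E b) * c) -
    h0 (a * b * D (E c))

variable {H : Type v} [CommRing H] [Algebra K H]

/-- A derivation acting on the left tensor factor. -/
noncomputable def lDer (D : Derivation K H H) : Derivation K (H ⊗[K] H) (H ⊗[K] H) :=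
  Derivation.mk' (LinearMap.rTensor H (D : H →ₗ[K] H)) (by
    intro u v
    induction u using TensorProduct.induction_on with
    | zero => simp
    | add u w hu hw => rw [add_mul, map_add, map_add, hu, hw, add_smul, smul_add]; abel
    | tmul p q =>
      induction v using TensorProduct.induction_on with
      | zero => simp
      | add v w hv hw => rw [mul_add, map_add, map_add, hv, hw, add_smul, smul_add]; abel
      | tmul s t =>
        rw [Algebra.TensorProduct.tmul_mul_tmul, LinearMap.rTensor_tmul, LinearMap.rTensor_tmul,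
          LinearMap.rTensor_tmul, smul_eq_mul, smul_eq_mul, Algebra.TensorProduct.tmul_mul_tmul,
          Algebra.TensorProduct.tmul_mul_tmul, mul_comm t q, ← TensorProduct.add_tmul]
        congr 1
        change D (p * s) = p * D s + s * D p
        rw [leib]; ring)

/-- A derivation acting on the right tensor factor. -/
noncomputable def rDer (D : Derivation K H H) : Derivation K (H ⊗[K] H) (H ⊗[K] H) :=
  Derivation.mk' (LinearMap.lTensor H (D : H →ₗ[K] H)) (by
    intro u v
    induction u using TensorProduct.induction_on with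
    | zero => simp
    | add u w hu hw => rw [add_mul, map_add, map_add, hu, hw, add_smul, smul_add]; abel
    | tmul p q =>
      induction v using TensorProduct.induction_on with
      | zero => simp
      | add v w hv hw => rw [mul_add, map_add, map_add, hv, hw, add_smul, smul_add]; abel
      | tmul s t =>
        rw [Algebra.TensorProduct.tmul_mul_tmul, LinearMap.lTensor_tmul, LinearMap.lTensor_tmul,
          LinearMap.lTensor_tmul, smul_eq_mul, smul_eq_mul, Algebra.TensorProduct.tmul_mul_tmul,
          Algebra.TensorProduct.tmul_mul_tmul, mul_comm s p, ← TensorProduct.tmul_add]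
        congr 1
        change D (q * t) = q * D t + t * D q
        rw [leib]; ring)

theorem lDer_tmul (D : Derivation K H H) (p q : H) : lDer D (p ⊗ₜ[K] q) = D p ⊗ₜ[K] q := rfl

theorem rDer_tmul (D : Derivation K H H) (p q : H) : rDer D (p ⊗ₜ[K] q) = p ⊗ₜ[K] D q := rfl

/-- Squares of sums of commuting square-zero operators. -/
theorem sum_comp_sum {L : Type v} [CommRing L] [Algebra K L] {ι : Type} (s : Finset ι)
    (F : ι → L →ₗ[K] L) (hc : ∀ i j u, F i (F j u) = F j (F i u)) (hF : ∀ i u, F i (F i u) = 0)
    (u : L) : ∑ i ∈ s, F i (∑ j ∈ s, F j u) = 0 := by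
  classical
  induction s using Finset.induction_on with
  | empty => simp
  | insert a s ha ih =>
    rw [Finset.sum_insert ha, Finset.sum_insert ha, map_add, hF, zero_add]
    have h1 : ∑ i ∈ s, F i (F a u + ∑ j ∈ s, F j u) =
        ∑ i ∈ s, F i (F a u) + ∑ i ∈ s, F i (∑ j ∈ s, F j u) := by
      rw [← Finset.sum_add_distrib]
      exact Finset.sum_congr rfl (fun i _ => map_add _ _ _)
    rw [h1, ih, add_zero, map_sum]
    have h2 : ∑ i ∈ s, F i (F a u) = ∑ i ∈ s, F a (F i u) :=
      Finset.sum_congr rfl (fun i _ => hc i a u)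
    rw [h2]
    exact add_self' (K := K) _

end secondOrder

section construct

variable {K : Type u} {H : Type v} [Field K] [CharP K 2] [CommRing H] [Algebra K H]

/-- The operator on the tensor square given by a family of derivations. -/
noncomputable def bigΔ {r : ℕ} (D : Fin r → Derivation K H H) :
    (H ⊗[K] H) →ₗ[K] (H ⊗[K] H) :=
  ∑ i, (lDer (D i) : (H ⊗[K] H) →ₗ[K] (H ⊗[K] H)) ∘ₗ
    (rDer (D i) : (H ⊗[K] H) →ₗ[K] (H ⊗[K] H))

theorem bigΔ_apply {r : ℕ} (D : Fin r → Derivation K H H) (u : H ⊗[K] H) :
    bigΔ D u = ∑ i, lDer (D i) (rDer (D i) u) := by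
  rw [bigΔ, LinearMap.sum_apply]; rfl

theorem bigΔ_tmul {r : ℕ} (D : Fin r → Derivation K H H) (p q : H) :
    bigΔ D (p ⊗ₜ[K] q) = ∑ i, D i p ⊗ₜ[K] D i q := by
  rw [bigΔ_apply]
  exact Finset.sum_congr rfl (fun i _ => by rw [rDer_tmul, lDer_tmul])

/-- The string algebra on the tensor square. -/
noncomputable def tensorString {r : ℕ} (D : Fin r → Derivation K H H)
    (hcomm : ∀ i j u, D i (D j u) = D j (D i u)) (hsq : ∀ i u, D i (D i u) = 0)
    (ε : H →ₐ[K] K) : StringAlgebra.{u, v, v} K H where
  L := H ⊗[K] H
  Δ := bigΔ D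
  Δ_sq := by
    intro a
    have hLR : ∀ (i j : Fin r) (u : H ⊗[K] H), rDer (D i) (lDer (D j) u) =
        lDer (D j) (rDer (D i) u) := by
      intro i j u
      induction u using TensorProduct.induction_on with
      | zero => simp
      | add u w hu hw => simp only [map_add, hu, hw]
      | tmul p q => rw [lDer_tmul, rDer_tmul, rDer_tmul, lDer_tmul]
    have hLL : ∀ (i j : Fin r) (u : H ⊗[K] H), lDer (D i) (lDer (D j) u) =
        lDer (D j) (lDer (D i) u) := by
      intro i j u
      induction u using TensorProduct.induction_on with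
      | zero => simp
      | add u w hu hw => simp only [map_add, hu, hw]
      | tmul p q => simp only [lDer_tmul, hcomm i j p]
    have hRR : ∀ (i j : Fin r) (u : H ⊗[K] H), rDer (D i) (rDer (D j) u) =
        rDer (D j) (rDer (D i) u) := by
      intro i j u
      induction u using TensorProduct.induction_on with
      | zero => simp
      | add u w hu hw => simp only [map_add, hu, hw]
      | tmul p q => simp only [rDer_tmul, hcomm i j q]
    have hRz : ∀ (i : Fin r) (u : H ⊗[K] H), rDer (D i) (rDer (D i) u) = 0 := by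
      intro i u
      induction u using TensorProduct.induction_on with
      | zero => simp
      | add u w hu hw => simp only [map_add, hu, hw, add_zero]
      | tmul p q => simp only [rDer_tmul, hsq, TensorProduct.tmul_zero]
    have := sum_comp_sum (K := K) (Finset.univ : Finset (Fin r))
      (fun i => (lDer (D i) : (H ⊗[K] H) →ₗ[K] (H ⊗[K] H)) ∘ₗ
        (rDer (D i) : (H ⊗[K] H) →ₗ[K] (H ⊗[K] H))) (by
          intro i j u
          change lDer (D i) (rDer (D i) (lDer (D j) (rDer (D j) u))) =
            lDer (D j) (rDer (D j) (lDer (D i) (rDer (D i) u)))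
          rw [hLR, hLL, hRR, ← hLR j i]) (by
          intro i u
          change lDer (D i) (rDer (D i) (lDer (D i) (rDer (D i) u))) = 0
          rw [hLR, hRz, map_zero, map_zero]) a
    rw [bigΔ_apply, bigΔ_apply]
    exact this
  seven := by
    intro a b c
    simp only [bigΔ_apply]
    simp only [seven_of_comp]
    simp only [Finset.sum_add_distrib, Finset.sum_mul, Finset.mul_sum]
  const := Algebra.TensorProduct.includeLeft
  ev := (Algebra.TensorProduct.rid K K H).toAlgHom.comp
    (Algebra.TensorProduct.map (AlgHom.id K H) ε)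
  ev_const := by
    intro z
    simp
  Δ_const := by
    intro z
    rw [Algebra.TensorProduct.includeLeft_apply, bigΔ_tmul]
    refine Finset.sum_eq_zero (fun i _ => ?_)
    rw [Derivation.map_one_eq_zero, TensorProduct.tmul_zero]

end construct

section final

variable {K : Type u} {H : Type v} [Field K] [CharP K 2] [CommRing H] [Algebra K H]

/-- The element `1 ⊗ y` of the tensor square, as an element of the string algebra. -/
noncomputable def elt {r : ℕ} (D : Fin r → Derivation K H H)
    (hcomm : ∀ i j u, D i (D j u) = D j (D i u)) (hsq : ∀ i u, D i (D i u) = 0)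
    (ε : H →ₐ[K] K) (y : H) : (tensorString D hcomm hsq ε).L := ((1 : H) ⊗ₜ[K] y : H ⊗[K] H)

theorem tensorString_P {r : ℕ} (D : Fin r → Derivation K H H)
    (hcomm : ∀ i j u, D i (D j u) = D j (D i u)) (hsq : ∀ i u, D i (D i u) = 0)
    (ε : H →ₐ[K] K) (y h : H) :
    (tensorString D hcomm hsq ε).P (elt D hcomm hsq ε y) h = ∑ j, ε (D j y) • D j h := by
  have h1 : (tensorString D hcomm hsq ε).bracket (elt D hcomm hsq ε y)
      ((tensorString D hcomm hsq ε).const h) = (∑ j, D j h ⊗ₜ[K] D j y : H ⊗[K] H) := by
    change bigΔ D (((1 : H) ⊗ₜ[K] y) * (h ⊗ₜ[K] (1 : H))) +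
      bigΔ D ((1 : H) ⊗ₜ[K] y) * (h ⊗ₜ[K] (1 : H)) +
      ((1 : H) ⊗ₜ[K] y) * bigΔ D (h ⊗ₜ[K] (1 : H)) = _
    rw [Algebra.TensorProduct.tmul_mul_tmul, one_mul, mul_one, bigΔ_tmul, bigΔ_tmul, bigΔ_tmul]
    have e1 : ∑ i, D i (1 : H) ⊗ₜ[K] D i y = 0 :=
      Finset.sum_eq_zero (fun i _ => by rw [Derivation.map_one_eq_zero, TensorProduct.zero_tmul])
    have e2 : ∑ i, D i h ⊗ₜ[K] D i (1 : H) = 0 :=
      Finset.sum_eq_zero (fun i _ => by rw [Derivation.map_one_eq_zero, TensorProduct.tmul_zero])
    rw [e1, e2, zero_mul, mul_zero, add_zero, add_zero]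
  have h2 : (tensorString D hcomm hsq ε).P (elt D hcomm hsq ε y) h =
      (tensorString D hcomm hsq ε).ev ((tensorString D hcomm hsq ε).bracket
        (elt D hcomm hsq ε y) ((tensorString D hcomm hsq ε).const h)) := rfl
  rw [h2, h1]
  change (Algebra.TensorProduct.rid K K H)
    (Algebra.TensorProduct.map (AlgHom.id K H) ε (∑ j, D j h ⊗ₜ[K] D j y)) = _
  rw [map_sum, map_sum]
  refine Finset.sum_congr rfl (fun j _ => ?_)
  rw [Algebra.TensorProduct.map_tmul, Algebra.TensorProduct.rid_tmul]
  rfl

theorem foldr_smul {r : ℕ} (F : Fin r → H →ₗ[K] H) (c : K) (z : H) (l : List (Fin r)) :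
    l.foldr (fun i z => F i z) (c • z) = c • l.foldr (fun i z => F i z) z := by
  induction l with
  | nil => rfl
  | cons i l ih => rw [List.foldr_cons, List.foldr_cons, ih, map_smul]

/-- Rings of products of spheres carry a string algebra in which the point is invertible. -/
theorem exists_string {𝒜 : ℕ → Submodule K H} [GradedAlgebra 𝒜] {n : ℕ} {μ : H}
    (hPD : PoincareAlgebra K H 𝒜 n μ) (hn : 0 < n) (h : SphereProductRing K H 𝒜 n μ) :
    ∃ 𝓢 : StringAlgebra.{u, v, v} K H, 𝓢.PointInvertible μ := by
  classical
  have := nontrivial_of_pd hPD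
  obtain ⟨ε, hε⟩ := exists_aug 𝒜 hPD.zero
  obtain ⟨r, d, x, hd, hx, hxx, ⟨b, hb⟩, hsum, c, hc, hμ⟩ := h
  have hxx' : ∀ i, x i * x i = 0 := fun i => by rw [← pow_two]; exact hxx i
  have hr : 0 < r := by
    rcases Nat.eq_zero_or_pos r with rfl | h
    · simp at hsum; omega
    · exact h
  let D : Fin r → Derivation K H H := fun i => delDer x hxx' b hb i
  have hDdel : ∀ i u, D i u = del x b i u := fun i u => rfl
  have hcomm : ∀ i j u, D i (D j u) = D j (D i u) := fun i j u => del_comm x b hb i j u
  have hsq : ∀ i u, D i (D i u) = 0 := fun i u => del_sq x b hb i u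
  have hDx : ∀ i j, D j (x i) = if j = i then 1 else 0 := by
    intro i j
    have h1 := del_mono x b hb j {i}
    rw [Finset.prod_singleton] at h1
    rw [hDdel, h1]
    by_cases hij : j = i
    · subst hij; simp
    · rw [if_neg hij, if_neg (by simpa using hij)]
  let 𝓢 := tensorString D hcomm hsq ε
  let θ : H → 𝓢.L := elt D hcomm hsq ε
  have hP : ∀ i (a : K) (z : H), 𝓢.P (θ (a • x i)) z = a • D i z := by
    intro i a z
    have h0 : 𝓢.P (θ (a • x i)) z = ∑ j, ε (D j (a • x i)) • D j z :=
      tensorString_P D hcomm hsq ε _ _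
    rw [h0, Finset.sum_eq_single i]
    · rw [(D i).map_smul, map_smul, hDx, if_pos rfl, map_one, smul_eq_mul, mul_one]
    · intro j _ hji
      rw [(D j).map_smul, map_smul, hDx, if_neg hji, map_zero, smul_zero, zero_smul]
    · intro h
      exact absurd (Finset.mem_univ _) h
  have hP1 : ∀ i (z : H), 𝓢.P (θ (x i)) z = D i z := by
    intro i z
    have := hP i 1 z
    rwa [one_smul, one_smul] at this
  obtain ⟨r', rfl⟩ : ∃ r', r = r' + 1 := ⟨r - 1, by omega⟩
  let t : List (Fin (r' + 1)) := (List.finRange r').map Fin.succ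
  have hnd : ((0 : Fin (r' + 1)) :: t).Nodup := by
    rw [← List.finRange_succ]
    exact List.nodup_finRange _
  have hfull : ∀ j, j ∈ ((0 : Fin (r' + 1)) :: t) := by
    intro j
    rw [← List.finRange_succ]
    exact List.mem_finRange _
  refine ⟨𝓢, θ (c⁻¹ • x 0) :: t.map (fun i => θ (x i)), ?_⟩
  rw [List.foldr_cons, hP, List.foldr_map]
  have h1 : t.foldr (fun i z => 𝓢.P (θ (x i)) z) μ =
      c • t.foldr (fun i z => del x b i z) (∏ i, x i) := by
    rw [hμ, ← foldr_smul]
    congr 1
    funext i z
    rw [hP1, hDdel]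
  rw [h1, (D 0).map_smul, smul_smul, inv_mul_cancel₀ hc, one_smul, hDdel]
  have h2 := foldr_del x b hb ((0 : Fin (r' + 1)) :: t) hnd Finset.univ
    (fun i _ => Finset.mem_univ _)
  rw [List.foldr_cons] at h2
  rw [h2]
  have h3 : (Finset.univ : Finset (Fin (r' + 1))) \ ((0 : Fin (r' + 1)) :: t).toFinset = ∅ := by
    rw [Finset.sdiff_eq_empty_iff_subset]
    intro j _
    rw [List.mem_toFinset]
    exact hfull j
  rw [h3, Finset.prod_empty]

end final

end MP460d31
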