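import Pool.Agent.Lib.MP_460d31_gt.Structure

/-!
# Homogeneous generators
-/

namespace MP460d31

universe u v

open Module

section monomials

variable {K : Type u} {H : Type v} [Field K] [CommRing H] [Algebra K H]

theorem prod_mul_prod_eq_zero {s : ℕ} (y : Fin s → H) (hy : ∀ i, y i * y i = 0)
    (S T : Finset (Fin s)) (h : ¬ Disjoint S T) : (∏ i ∈ S, y i) * (∏ i ∈ T, y i) = 0 := by
  rw [Finset.not_disjoint_iff] at h
  obtain ⟨i, hS, hT⟩ := h
  rw [← Finset.mul_prod_erase S y hS, ← Finset.mul_prod_erase T y hT]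
  linear_combination (∏ x ∈ S.erase i, y x) * (∏ x ∈ T.erase i, y x) * hy i

theorem prod_mul_prod_eq {s : ℕ} (y : Fin s → H)
    (S T : Finset (Fin s)) (h : Disjoint S T) :
    (∏ i ∈ S, y i) * (∏ i ∈ T, y i) = ∏ i ∈ S ∪ T, y i :=
  (Finset.prod_union h).symm

/-- Squarefree monomials span as soon as square-zero elements generate. -/
theorem span_monomials {s : ℕ} (y : Fin s → H) (hy : ∀ i, y i * y i = 0)
    (hgen : Algebra.adjoin K (Set.range y) = ⊤) :
    Submodule.span K (Set.range (fun S : Finset (Fin s) => ∏ i ∈ S, y i)) = ⊤ := by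
  let N : Submonoid H :=
    { carrier := {z | z = 0 ∨ ∃ S : Finset (Fin s), z = ∏ i ∈ S, y i}
      one_mem' := Or.inr ⟨∅, by simp⟩
      mul_mem' := by
        rintro a b (rfl | ⟨S, rfl⟩) (rfl | ⟨T, rfl⟩)
        · left; simp
        · left; simp
        · left; simp
        · by_cases h : Disjoint S T
          · right; exact ⟨S ∪ T, prod_mul_prod_eq y S T h⟩
          · left; exact prod_mul_prod_eq_zero y hy S T h }
  have hN : Submonoid.closure (Set.range y) ≤ N := by
    rw [Submonoid.closure_le]
    rintro _ ⟨i, rfl⟩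
    exact Or.inr ⟨{i}, by simp⟩
  rw [eq_top_iff]
  intro z _
  have hz : z ∈ Subalgebra.toSubmodule (Algebra.adjoin K (Set.range y)) := by
    rw [hgen]; trivial
  rw [Algebra.adjoin_eq_span] at hz
  refine Submodule.span_le.2 ?_ hz
  intro w hw
  rcases hN hw with rfl | ⟨S, rfl⟩
  · exact Submodule.zero_mem _
  · exact Submodule.subset_span ⟨S, rfl⟩

end monomials

section nakayama

variable {K : Type u} {H : Type v} [Field K] [CommRing H] [Algebra K H]

/-- Elements of the augmentation ideal generating it modulo its square generate the algebra. -/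
theorem adjoin_eq_top_of_sup (ε : H →ₐ[K] K) (M V : Submodule K H)
    (hM : ∀ z, z ∈ M ↔ ε z = 0) (hV : V ≤ M) (hMV : M ≤ V ⊔ M * M) (N : ℕ) (hN : M ^ N = ⊥)
    (A : Subalgebra K H) (hVA : V ≤ Subalgebra.toSubmodule A) : A = ⊤ := by
  have hVpow : ∀ k, V ^ k ≤ Subalgebra.toSubmodule A := by
    intro k
    induction k with
    | zero =>
      rw [pow_zero, Submodule.one_le]
      exact A.one_mem
    | succ k ih =>
      rw [pow_succ, Submodule.mul_le]
      intro m hm n hn
      exact A.mul_mem (ih hm) (hVA hn)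
  have hMM : M * M ≤ M := by
    rw [Submodule.mul_le]
    intro m hm n hn
    rw [hM] at hm ⊢
    rw [map_mul, hm, zero_mul]
  have hVM : ∀ k, M ^ (k + 1) ≤ V ^ (k + 1) ⊔ M ^ (k + 2) := by
    intro k
    induction k with
    | zero => simpa [pow_two] using hMV
    | succ k ih =>
      calc M ^ (k + 1 + 1) = M ^ (k + 1) * M := pow_succ _ _
        _ ≤ (V ^ (k + 1) ⊔ M ^ (k + 2)) * M := mul_le_mul' ih le_rfl
        _ = V ^ (k + 1) * M ⊔ M ^ (k + 2) * M := Submodule.sup_mul _ _ _
        _ ≤ V ^ (k + 1 + 1) ⊔ M ^ (k + 1 + 2) := by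
          refine sup_le ?_ ?_
          · calc V ^ (k + 1) * M ≤ V ^ (k + 1) * (V ⊔ M * M) := mul_le_mul' le_rfl hMV
              _ = V ^ (k + 1) * V ⊔ V ^ (k + 1) * (M * M) := Submodule.mul_sup _ _ _
              _ ≤ V ^ (k + 1 + 1) ⊔ M ^ (k + 1 + 2) := by
                refine sup_le_sup (le_of_eq (pow_succ _ _).symm) ?_
                calc V ^ (k + 1) * (M * M) ≤ M ^ (k + 1) * (M * M) :=
                      mul_le_mul' (pow_le_pow_left' hV _) le_rfl
                  _ = M ^ (k + 1 + 2) := by rw [pow_add M (k + 1) 2, pow_two]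
          · refine le_trans (le_of_eq ?_) le_sup_right
            rw [← pow_succ]
  have hdown : ∀ j k, k + 1 + j = N + 1 → M ^ (k + 1) ≤ Subalgebra.toSubmodule A := by
    intro j
    induction j with
    | zero =>
      intro k hk
      have : k + 1 = N + 1 := by omega
      rw [this, pow_succ, hN]
      simp
    | succ j ih =>
      intro k hk
      exact (hVM k).trans (sup_le (hVpow _) (ih (k + 1) (by omega)))
  have hMA : M ≤ Subalgebra.toSubmodule A := by
    have := hdown N 0 (by omega)
    simpa using this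
  rw [eq_top_iff]
  intro z _
  have h1 : z - algebraMap K H (ε z) ∈ M := by
    rw [hM, map_sub, AlgHom.commutes]; simp
  have h2 : z = algebraMap K H (ε z) + (z - algebraMap K H (ε z)) := by ring
  rw [h2]
  exact A.add_mem (A.algebraMap_mem _) (hMA h1)

/-- If elements of the augmentation ideal generate the algebra then they span the augmentation
ideal modulo its square. -/
theorem le_span_sup {r : ℕ} (ε : H →ₐ[K] K) (M : Submodule K H)
    (hM : ∀ z, z ∈ M ↔ ε z = 0) (x : Fin r → H) (hx : ∀ i, ε (x i) = 0)
    (hgen : Algebra.adjoin K (Set.range x) = ⊤) :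
    M ≤ Submodule.span K (Set.range x) ⊔ M * M := by
  have key : ∀ z : H, z - algebraMap K H (ε z) ∈ Submodule.span K (Set.range x) ⊔ M * M := by
    intro z
    have hz : z ∈ Algebra.adjoin K (Set.range x) := by rw [hgen]; trivial
    induction hz using Algebra.adjoin_induction with
    | mem w hw =>
      obtain ⟨i, rfl⟩ := hw
      rw [hx, map_zero, sub_zero]
      exact Submodule.mem_sup_left (Submodule.subset_span ⟨i, rfl⟩)
    | algebraMap c => simp
    | add a b _ _ ha hb =>
      rw [map_add, map_add]
      have : a + b - (algebraMap K H (ε a) + algebraMap K H (ε b)) =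
        (a - algebraMap K H (ε a)) + (b - algebraMap K H (ε b)) := by ring
      rw [this]
      exact Submodule.add_mem _ ha hb
    | mul a b _ _ ha hb =>
      have : a * b - algebraMap K H (ε (a * b)) =
          (a - algebraMap K H (ε a)) * (b - algebraMap K H (ε b)) +
          (ε a • (b - algebraMap K H (ε b)) + ε b • (a - algebraMap K H (ε a))) := by
        rw [map_mul, map_mul, Algebra.smul_def, Algebra.smul_def]; ring
      rw [this]
      refine Submodule.add_mem _ (Submodule.mem_sup_right (Submodule.mul_mem_mul ?_ ?_))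
        (Submodule.add_mem _ (Submodule.smul_mem _ _ hb) (Submodule.smul_mem _ _ ha))
      · rw [hM, map_sub, AlgHom.commutes]; simp
      · rw [hM, map_sub, AlgHom.commutes]; simp
  intro z hz
  have := key z
  rwa [(hM z).1 hz, map_zero, sub_zero] at this

/-- The augmentation ideal is nilpotent when its elements have square zero. -/
theorem pow_eq_bot [FiniteDimensional K H] (ε : H →ₐ[K] K) (M : Submodule K H)
    (hM : ∀ z, z ∈ M ↔ ε z = 0) (hsq : ∀ z, ε z = 0 → z * z = 0) : ∃ N, M ^ N = ⊥ := by
  have hNoeth : IsNoetherianRing H := IsNoetherianRing.of_finite K H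
  obtain ⟨N, hN⟩ := IsNoetherianRing.isNilpotent_nilradical H
  have hle : RingHom.ker ε ≤ nilradical H := by
    intro z hz
    rw [mem_nilradical]
    exact ⟨2, by rw [pow_two]; exact hsq z hz⟩
  have hpow : ∀ k, M ^ k ≤ Submodule.restrictScalars K ((nilradical H) ^ k) := by
    intro k
    induction k with
    | zero => rw [pow_zero, pow_zero, Ideal.one_eq_top]; intro z _; trivial
    | succ k ih =>
      rw [pow_succ, pow_succ, Submodule.mul_le]
      intro m hm n hn
      exact Ideal.mul_mem_mul (ih hm) (hle ((hM n).1 hn))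
  refine ⟨N, ?_⟩
  rw [eq_bot_iff]
  intro z hz
  have := hpow N hz
  rw [hN] at this
  exact this

end nakayama

end MP460d31
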