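import Pool.Agent.Lib.MP_460d31_gt.Classify

/-!
# String algebras and point-invertibility
-/

namespace MP460d31

universe u v w

open Module DirectSum

/-- The algebraic structure that string topology puts on the homology `L` of the free loop
space of a closed manifold with cohomology ring `H`, over a field of characteristic two: the
commutative loop product, the Batalin-Vilkovisky operator `Δ` (square zero and of second order),
the inclusion of constant loops and the evaluation at the base point. Poincare duality is used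
to write `H` for the homology of the manifold with its intersection product. -/
structure StringAlgebra (K : Type u) (H : Type v) [Field K] [CommRing H] [Algebra K H] where
  L : Type w
  [commRing : CommRing L]
  [algebra : Algebra K L]
  Δ : L →ₗ[K] L
  Δ_sq : ∀ a, Δ (Δ a) = 0
  seven : ∀ a b c, Δ (a * b * c) =
    Δ (a * b) * c + a * Δ (b * c) + b * Δ (a * c) + Δ a * b * c + a * Δ b * c + a * b * Δ c
  const : H →ₐ[K] L
  ev : L →ₐ[K] H
  ev_const : ∀ z, ev (const z) = z
  Δ_const : ∀ z, Δ (const z) = 0

attribute [instance] StringAlgebra.commRing StringAlgebra.algebra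

namespace StringAlgebra

variable {K : Type u} {H : Type v} [Field K] [CommRing H] [Algebra K H]

/-- The loop bracket (characteristic two, so no signs). -/
def bracket (𝓢 : StringAlgebra.{u, v, w} K H) (a b : 𝓢.L) : 𝓢.L :=
  𝓢.Δ (a * b) + 𝓢.Δ a * b + a * 𝓢.Δ b

/-- The operator `P_a` on the homology of the manifold. -/
def P (𝓢 : StringAlgebra.{u, v, w} K H) (a : 𝓢.L) (z : H) : H :=
  𝓢.ev (𝓢.bracket a (𝓢.const z))

/-- Some composition of the operators `P_a` takes the class `μ` of a point to the
fundamental class `1` of the manifold. -/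
def PointInvertible (𝓢 : StringAlgebra.{u, v, w} K H) (μ : H) : Prop :=
  ∃ l : List 𝓢.L, l.foldr (fun a z => 𝓢.P a z) μ = 1

/-- Weaker: every linear subspace which contains the class `μ` of a point and is closed under
all the operators `P_a` and under multiplication by all elements of `H` contains `1`. -/
def WeaklyPointInvertible (𝓢 : StringAlgebra.{u, v, w} K H) (μ : H) : Prop :=
  ∀ W : Submodule K H, μ ∈ W → (∀ a, ∀ z ∈ W, 𝓢.P a z ∈ W) → (∀ h, ∀ z ∈ W, h * z ∈ W) →
    (1 : H) ∈ W

theorem PointInvertible.weakly {𝓢 : StringAlgebra.{u, v, w} K H} {μ : H}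
    (h : 𝓢.PointInvertible μ) : 𝓢.WeaklyPointInvertible μ := by
  obtain ⟨l, hl⟩ := h
  intro W hμ hP _
  have key : ∀ l : List 𝓢.L, l.foldr (fun a z => 𝓢.P a z) μ ∈ W := by
    intro l
    induction l with
    | nil => exact hμ
    | cons a l ih => exact hP a _ ih
  rw [← hl]
  exact key l

variable [CharP K 2]

/-- The operators `P_a` are derivations. -/
def PDer (𝓢 : StringAlgebra.{u, v, w} K H) (a : 𝓢.L) : Derivation K H H :=
  Derivation.mk'
    { toFun := 𝓢.P a
      map_add' := by
        intro x y
        simp only [P, bracket, map_add, mul_add]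
        ring
      map_smul' := by
        intro c x
        simp only [P, bracket, map_smul, mul_smul_comm, smul_add, RingHom.id_apply, map_add] }
    (by
      intro x y
      change 𝓢.P a (x * y) = x * 𝓢.P a y + y * 𝓢.P a x
      have h1 : 𝓢.bracket a (𝓢.const x * 𝓢.const y) =
          𝓢.const x * 𝓢.bracket a (𝓢.const y) + 𝓢.const y * 𝓢.bracket a (𝓢.const x) := by
        have hx := 𝓢.Δ_const x
        have hy := 𝓢.Δ_const y
        have hxy : 𝓢.Δ (𝓢.const x * 𝓢.const y) = 0 := by rw [← map_mul]; exact 𝓢.Δ_const _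
        have h2 := 𝓢.seven a (𝓢.const x) (𝓢.const y)
        rw [hx, hy, hxy] at h2
        simp only [bracket]
        rw [hx, hy, hxy, ← mul_assoc, h2]
        ring
      rw [P, map_mul, h1, map_add, map_mul, map_mul, 𝓢.ev_const, 𝓢.ev_const]
      rfl)

theorem PDer_apply (𝓢 : StringAlgebra.{u, v, w} K H) (a : 𝓢.L) (z : H) :
    𝓢.PDer a z = 𝓢.P a z := rfl

end StringAlgebra

section forward

variable {K : Type u} {H : Type v} [Field K] [CommRing H] [Algebra K H]
  {𝒜 : ℕ → Submodule K H} [GradedAlgebra 𝒜] {n : ℕ} {μ : H}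

/-- A nonzero ideal contains the fundamental class. -/
theorem mem_of_ne_bot (hPD : PoincareAlgebra K H 𝒜 n μ) (I : Ideal H) (hI : I ≠ ⊥) : μ ∈ I := by
  classical
  obtain ⟨z, hz, hz0⟩ := Submodule.exists_mem_ne_zero_of_ne_bot hI
  have hne : (decompose 𝒜 z).support.Nonempty := by
    rw [Finset.nonempty_iff_ne_empty]
    intro h
    apply hz0
    rw [← sum_support_decompose 𝒜 z, h, Finset.sum_empty]
  set i0 := (decompose 𝒜 z).support.min' hne with hi0
  have hi0mem : i0 ∈ (decompose 𝒜 z).support := Finset.min'_mem _ _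
  have hzi0 : ((decompose 𝒜 z i0 : 𝒜 i0) : H) ≠ 0 := by
    rw [DFinsupp.mem_support_iff] at hi0mem
    intro h
    exact hi0mem (Subtype.ext h)
  have hi0n : i0 ≤ n := by
    by_contra h
    push Not at h
    have h1 := (hPD.above i0 h).le (decompose 𝒜 z i0).2
    exact hzi0 ((Submodule.mem_bot _).1 h1)
  obtain ⟨w, hw, hzw⟩ := hPD.dual i0 _ (decompose 𝒜 z i0).2 hzi0
  have hprod : w * z = μ := by
    conv_lhs => rw [← sum_support_decompose 𝒜 z]
    rw [Finset.mul_sum, Finset.sum_eq_single i0]
    · rw [mul_comm, hzw]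
    · intro i hi hne'
      have hlt : i0 < i := lt_of_le_of_ne (Finset.min'_le _ _ hi) (Ne.symm hne')
      have h1 : w * ((decompose 𝒜 z i : 𝒜 i) : H) ∈ 𝒜 (n - i0 + i) :=
        SetLike.mul_mem_graded hw (decompose 𝒜 z i).2
      have h2 := (hPD.above (n - i0 + i) (by omega)).le h1
      exact (Submodule.mem_bot _).1 h2
    · intro h
      exact absurd hi0mem h
  rw [← hprod]
  exact I.mul_mem_left _ hz

theorem diffSimple_of_weakly [CharP K 2] (hPD : PoincareAlgebra K H 𝒜 n μ)
    (𝓢 : StringAlgebra.{u, v, w} K H) (h : 𝓢.WeaklyPointInvertible μ) : DiffSimple K H := by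
  intro I hI
  by_cases hb : I = ⊥
  · exact Or.inl hb
  · right
    rw [Ideal.eq_top_iff_one]
    exact h (I.restrictScalars K) (mem_of_ne_bot hPD I hb)
      (fun a z hz => hI (𝓢.PDer a) z hz) (fun h z hz => I.mul_mem_left h hz)

end forward

end MP460d31
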