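import Pool.Agent.Lib.MP_460d31_gt.Basic

/-!
# The structure theorem, ungraded form
-/

namespace MP460d31

universe u v

open Module

variable {K : Type u} [Field K] [CharP K 2]

/-- A finite-dimensional augmented algebra over a field of characteristic two without
nontrivial differentially stable ideals is generated by `r` elements of the augmentation ideal,
where `2 ^ r` is its dimension. -/
theorem structure_aux : ∀ (d : ℕ) (H : Type v) [CommRing H] [Algebra K H]
    [FiniteDimensional K H] (ε : H →ₐ[K] K), DiffSimple K H → finrank K H = d →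
    ∃ (r : ℕ) (x : Fin r → H), (∀ i, ε (x i) = 0) ∧ finrank K H = 2 ^ r ∧
      Algebra.adjoin K (Set.range x) = ⊤ := by
  intro d
  induction d using Nat.strong_induction_on with
  | _ d ih =>
  intro H _ _ _ ε hDS hd
  by_cases hker : RingHom.ker ε = ⊥
  · have hinj : Function.Injective ε := (RingHom.injective_iff_ker_eq_bot _).2 hker
    have hsurj : Function.Surjective ε := fun c => ⟨algebraMap K H c, by simp⟩
    refine ⟨0, Fin.elim0, fun i => i.elim0, ?_, ?_⟩
    · have := (LinearEquiv.ofBijective ε.toLinearMap ⟨hinj, hsurj⟩).finrank_eq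
      rw [this]; simp
    · rw [eq_top_iff]
      intro z _
      have : z = algebraMap K H (ε z) := hinj (by simp)
      rw [this]
      exact Subalgebra.algebraMap_mem _ _
  · obtain ⟨D, a, ha, hDa, hDD⟩ := exists_nice hDS ε hker
    have haa := sq_zero hDS ε ha
    have hfin : finrank K H = finrank K (kerAlg D) + finrank K (kerAlg D) := by
      rw [(splitEquiv D a hDa haa hDD).finrank_eq, Module.finrank_prod]
    have hnt : Nontrivial H := by
      refine ⟨⟨0, 1, fun h => ?_⟩⟩
      have := congrArg ε h
      rw [map_zero, map_one] at this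
      exact zero_ne_one this
    have hpos : 0 < finrank K (kerAlg D) := Module.finrank_pos
    obtain ⟨r, x, hx, hr, hgen⟩ := ih (finrank K (kerAlg D)) (by omega) (kerAlg D)
      (ε.comp (kerAlg D).val) (diffSimple_ker D a hDa haa hDD hDS) rfl
    refine ⟨r + 1, Fin.cons a (fun i => (x i : H)), ?_, ?_, ?_⟩
    · intro i
      refine Fin.cases ?_ ?_ i
      · exact ha
      · intro j
        rw [Fin.cons_succ]
        exact hx j
    · rw [hfin, hr, pow_succ]; ring
    · rw [eq_top_iff]
      intro z _
      have hsub : ∀ w : kerAlg D, (w : H) ∈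
          Algebra.adjoin K (Set.range (Fin.cons a (fun i => (x i : H)) : Fin (r + 1) → H)) := by
        intro w
        have hw : w ∈ Algebra.adjoin K (Set.range x) := by rw [hgen]; trivial
        have h1 : (kerAlg D).val w ∈ (Algebra.adjoin K (Set.range x)).map (kerAlg D).val :=
          ⟨w, hw, rfl⟩
        rw [AlgHom.map_adjoin] at h1
        refine Algebra.adjoin_mono ?_ h1
        rintro _ ⟨_, ⟨i, rfl⟩, rfl⟩
        exact ⟨i.succ, by simp⟩
      rw [decomp D a hDa haa hDD z]
      refine Subalgebra.add_mem _ (hsub _) (Subalgebra.mul_mem _ ?_ (hsub _))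
      exact Algebra.subset_adjoin ⟨0, by simp⟩

end MP460d31
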